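import Mathlib

set_option autoImplicit false

/-! Schur's finite identities, evaluated at a root of unity. -/

namespace Pool.Agent.H.MP_b3b2bb_nt

open Finset

variable {q : ℂ}

/-- Gaussian binomials -/
noncomputable def G (q : ℂ) : ℕ → ℤ → ℂ
  | 0, t => if t = 0 then 1 else 0
  | n + 1, t => G q n (t - 1) + q ^ t * G q n t

theorem Gs (n : ℕ) (t : ℤ) : G q (n + 1) t = G q n (t - 1) + q ^ t * G q n t := rfl

theorem G_out (n : ℕ) (t : ℤ) (h : t < 0 ∨ (n : ℤ) < t) : G q n t = 0 := by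
  induction n generalizing t with
  | zero => exact if_neg (by omega)
  | succ n ih => rw [G, ih _ (by omega), ih _ (by omega)]; simp

theorem G_zero (n : ℕ) : G q n 0 = 1 := by
  induction n with
  | zero => simp [G]
  | succ n ih => rw [G, ih, G_out _ _ (by omega)]; simp

theorem G_self (n : ℕ) : G q n n = 1 := by
  induction n with
  | zero => simp [G]
  | succ n ih => rw [G, G_out n (n + 1 : ℕ) (by omega)]; simpa using ih

theorem pascal (hq : q ≠ 0) (n : ℕ) (t : ℤ) :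
    G q (n + 1) t = G q n t + q ^ (n + 1 - t) * G q n (t - 1) := by
  induction n generalizing t with
  | zero =>
    simp only [G]
    by_cases a : t = 0
    · simp [a]
    · by_cases b : t - 1 = 0
      · simp [show t = 1 by omega]
      · simp [a, b]
  | succ n ih =>
    have e1 : q ^ t * q ^ (n + 1 - t) = q ^ (((n + 1 : ℕ) : ℤ) + 1 - t) * q ^ (t - 1) := by
      rw [← zpow_add₀ hq, ← zpow_add₀ hq]; congr 1; push_cast; ring
    have e2 : q ^ (n + 1 - (t - 1)) = q ^ (((n + 1 : ℕ) : ℤ) + 1 - t) := by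
      congr 1; push_cast; ring
    have e3 := ih (t - 1)
    rw [e2] at e3
    linear_combination Gs (q := q) (n + 1) t + e3 + q ^ t * ih t - Gs (q := q) n t -
      q ^ (((n + 1 : ℕ) : ℤ) + 1 - t) * Gs (q := q) n (t - 1) + G q n (t - 1) * e1

def tri (j : ℤ) : ℤ := j * (j - 1) / 2

theorem tri_succ (j : ℤ) : tri (j + 1) = tri j + j := by
  unfold tri
  rw [← Int.add_mul_ediv_right _ _ (two_ne_zero)]
  congr 1; ring

noncomputable def c (q : ℂ) (a j : ℤ) : ℂ := (-1) ^ j * q ^ (5 * tri j + (3 - 2 * a) * j)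

noncomputable def T (q : ℂ) (a : ℤ) (n : ℕ) (j : ℤ) : ℂ := c q a j * G q n ((n - 5 * j) / 2 + a)

noncomputable def V (q : ℂ) (a : ℤ) (n : ℕ) (j : ℤ) : ℂ :=
  if (n - 5 * j) % 2 = 0 then
    c q a j * q ^ ((n - 5 * j) / 2 + a + 1) * G q n ((n - 5 * j) / 2 + a + 1) else 0

theorem step (hq : q ≠ 0) (a : ℤ) (n : ℕ) (j : ℤ) :
    T q a (n + 2) j = T q a (n + 1) j + q ^ (n + 1) * T q a n j + (V q a n j - V q a n (j + 1)) := by
  unfold T V
  obtain ⟨t, ht⟩ : ∃ t, t = ((n : ℤ) - 5 * j) / 2 + a := ⟨_, rfl⟩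
  by_cases h : ((n : ℤ) - 5 * j) % 2 = 0
  · rw [if_pos h, if_neg (by omega), show (((n + 2 : ℕ) : ℤ) - 5 * j) / 2 + a = t + 1 by omega,
      show (((n + 1 : ℕ) : ℤ) - 5 * j) / 2 + a = t by omega, ← ht, G, pascal hq n (t + 1),
      add_sub_cancel_right]
    have e : q ^ (t + 1) * q ^ (n + 1 - (t + 1)) = q ^ (n + 1) := by
      rw [← zpow_add₀ hq, ← zpow_natCast]; congr 1; push_cast; ring
    linear_combination c q a j * G q n t * e
  · rw [if_neg h, if_pos (by omega), show (((n + 2 : ℕ) : ℤ) - 5 * j) / 2 + a = t + 1 by omega,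
      show (((n + 1 : ℕ) : ℤ) - 5 * j) / 2 + a = t + 1 by omega, ← ht, pascal hq (n + 1) (t + 1),
      add_sub_cancel_right, show ((n : ℤ) - 5 * (j + 1)) / 2 + a + 1 = t - 1 by omega]
    have e : q ^ (((n + 1 : ℕ) : ℤ) + 1 - (t + 1)) * q ^ t = q ^ (n + 1) := by
      rw [← zpow_add₀ hq, ← zpow_natCast]; congr 1; push_cast; ring
    have f : c q a (j + 1) * q ^ (t - 1) = - c q a j * q ^ (((n + 1 : ℕ) : ℤ) + 1 - (t + 1)) := by
      unfold c
      rw [zpow_add_one₀ (by norm_num), tri_succ, neg_mul, mul_assoc, mul_assoc, mul_assoc,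
        ← zpow_add₀ hq, ← zpow_add₀ hq, show 5 * (tri j + j) + (3 - 2 * a) * (j + 1) + (t - 1) =
        5 * tri j + (3 - 2 * a) * j + (((n + 1 : ℕ) : ℤ) + 1 - (t + 1)) by
          have : (3 - 2 * a) * (j + 1) = (3 - 2 * a) * j + (3 - 2 * a) := by ring
          omega]
      ring
    rw [Gs n t]
    linear_combination c q a j * G q n t * e + G q n (t - 1) * f

/-- the Schur sums -/
noncomputable def S (q : ℂ) (a : ℤ) (N n : ℕ) : ℂ := ∑ i ∈ range (2 * N + 1), T q a n (i - N)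

theorem S_rec (hq : q ≠ 0) {a : ℤ} (ha : a = 0 ∨ a = 1) {N n : ℕ} (h : n + 5 ≤ N) :
    S q a N (n + 2) = S q a N (n + 1) + q ^ (n + 1) * S q a N n := by
  unfold S
  simp only [step hq, sum_add_distrib, ← mul_sum]
  have := sum_range_sub' (fun i : ℕ => V q a n (i - N)) (2 * N + 1)
  simp only [Nat.cast_add, Nat.cast_one, add_sub_right_comm] at this
  rw [this]
  unfold V
  rw [G_out _ _ (by omega), G_out _ _ (by omega)]
  simp

theorem S_two {a : ℤ} {N n μ : ℕ} (h : μ ≤ N) (h0 : 0 < μ)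
    (z : ∀ j : ℤ, j ≠ μ → j ≠ -μ → G q n ((n - 5 * j) / 2 + a) = 0) :
    S q a N n = T q a n μ + T q a n (-μ) := by
  unfold S
  rw [sum_eq_add_of_mem (N + μ) (N - μ) (by simp; omega) (by simp; omega) (by omega)
    fun i _ hi => by rw [T, z _ (by omega) (by omega), mul_zero]]
  congr 2 <;> omega

theorem S_one {a : ℤ} {N n : ℕ} (z : ∀ j : ℤ, j ≠ 0 → G q n ((n - 5 * j) / 2 + a) = 0) :
    S q a N n = G q n (n / 2 + a) := by
  unfold S
  rw [sum_eq_single_of_mem N (by simp; omega) fun i _ hi => by rw [T, z _ (by omega), mul_zero]]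
  simp [T, c, tri]

/-- solutions of the recurrence with numerators `q ^ (n + 1)` -/
noncomputable def U (q u v : ℂ) : ℕ → ℂ
  | 0 => u
  | 1 => v
  | n + 2 => U q u v (n + 1) + q ^ (n + 1) * U q u v n

theorem U_eq (hq : q ≠ 0) {a : ℤ} (ha : a = 0 ∨ a = 1) (N n : ℕ) (h : n + 3 ≤ N) :
    U q (1 - a) 1 n = S q a N n := by
  induction n using Nat.twoStepInduction with
  | zero =>
    rw [S_one fun j hj => G_out _ _ (by omega)]
    rcases ha with rfl | rfl <;> simp [U, G]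
  | one =>
    rw [S_one fun j hj => G_out _ _ (by omega)]
    rcases ha with rfl | rfl <;> simp [U, G]
  | more n i1 i2 => rw [U, S_rec hq ha (by omega), i1 (by omega), i2 (by omega)]

variable {m : ℕ}

theorem G_m (h : IsPrimitiveRoot q m) (t : ℤ) (a : t ≠ 0) (b : t ≠ m) : G q m t = 0 := by
  rcases lt_or_ge t 0 with l | l
  · exact G_out _ _ (.inl l)
  rcases lt_or_ge (m : ℤ) t with g | g
  · exact G_out _ _ (.inr g)
  have hq : q ≠ 0 := h.ne_zero (by omega)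
  obtain ⟨t, rfl⟩ := Int.eq_ofNat_of_zero_le l
  induction t with
  | zero => exact absurd rfl a
  | succ t ih =>
    have e := (Gs m (t + 1 : ℕ)).symm.trans (pascal hq m (t + 1 : ℕ))
    have n1 : q ^ ((t + 1 : ℕ) : ℤ) ≠ 1 := by
      rw [zpow_natCast]; exact h.pow_ne_one_of_pos_of_lt (by omega) (by omega)
    rw [show ((t + 1 : ℕ) : ℤ) - 1 = t by omega] at e
    refine (mul_eq_zero.1 (?_ : (q ^ ((t + 1 : ℕ) : ℤ) - 1) * _ = 0)).resolve_left (sub_ne_zero.2 n1)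
    rcases Nat.eq_zero_or_pos t with rfl | p
    · rw [show (m : ℤ) + 1 - ((0 + 1 : ℕ) : ℤ) = m by omega, zpow_natCast q m, h.pow_eq_one] at e
      linear_combination e
    · rw [ih (by omega) (by omega) (by omega) (by omega)] at e
      linear_combination e

theorem cval {μ : ℕ} (h : IsPrimitiveRoot q (5 * μ)) (h0 : 0 < μ) (a : ℤ) :
    c q a μ + c q a (-μ) = -((q ^ μ) ^ (3 - 2 * a) + ((q ^ μ) ^ (3 - 2 * a))⁻¹) := by
  have hq : q ≠ 0 := h.ne_zero (by omega)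
  have p := h.pow_eq_one
  have e1 : (-1 : ℂ) ^ (μ : ℤ) * q ^ (5 * tri μ) = -1 := by
    obtain ⟨k, rfl | rfl⟩ := Nat.even_or_odd' μ
    · have e : q ^ (5 * k) = -1 := ((h.pow (by omega) (show 5 * (2 * k) = 5 * k * 2 by ring))).eq_neg_one_of_two_right
      have : 5 * tri (2 * k : ℕ) = (5 * k : ℕ) * (2 * (k - 1) + 1 : ℤ) := by
        unfold tri
        rw [show ((2 * k : ℕ) : ℤ) * ((2 * k : ℕ) - 1) = k * (2 * k - 1) * 2 by push_cast; ring,
          Int.mul_ediv_cancel _ two_ne_zero]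
        push_cast; ring
      rw [this, zpow_mul, zpow_natCast q, e, Odd.neg_one_zpow ⟨_, rfl⟩, Even.neg_one_zpow (by simp)]
      simp
    · have : 5 * tri (2 * k + 1 : ℕ) = (5 * (2 * k + 1) : ℕ) * (k : ℤ) := by
        unfold tri
        rw [show ((2 * k + 1 : ℕ) : ℤ) * ((2 * k + 1 : ℕ) - 1) = (2 * k + 1) * k * 2 by
          push_cast; ring, Int.mul_ediv_cancel _ two_ne_zero]
        push_cast; ring
      rw [this, zpow_mul, zpow_natCast q, p, Odd.neg_one_zpow ⟨k, by push_cast; ring⟩]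
      simp
  have e2 : 5 * tri (-μ) = 5 * tri μ + (5 * μ : ℕ) := by
    have : tri (-μ) = tri (μ + 1) := by unfold tri; congr 1; ring
    rw [this, tri_succ]; push_cast; ring
  unfold c
  rw [zpow_add₀ hq, zpow_add₀ hq, e2, zpow_add₀ hq, zpow_natCast q, p, mul_neg, zpow_neg, zpow_neg,
    ← zpow_natCast q μ, ← zpow_mul, mul_comm (μ : ℤ), ← inv_zpow, inv_neg, inv_one]
  linear_combination (q ^ ((3 - 2 * a) * μ) + (q ^ ((3 - 2 * a) * μ))⁻¹) * e1

theorem gold {ξ : ℂ} (h : IsPrimitiveRoot ξ 5) : -(ξ + ξ⁻¹) = ((1 + √5) / 2 : ℝ) ∨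
    -(ξ + ξ⁻¹) = ((1 - √5) / 2 : ℝ) := by
  have h0 : ξ ≠ 0 := h.ne_zero (by omega)
  have h1 := h.geom_sum_eq_zero (by omega)
  simp only [sum_range_succ, sum_range_zero] at h1
  have s : ((√5 : ℝ) : ℂ) ^ 2 = 5 := by
    rw [← Complex.ofReal_pow, Real.sq_sqrt (by norm_num)]; simp
  have e : ξ * ξ⁻¹ = 1 := mul_inv_cancel₀ h0
  rw [← sub_eq_zero, ← sub_eq_zero (a := -(ξ + ξ⁻¹)), ← mul_eq_zero]
  push_cast
  linear_combination (-1 / 4) * s + ξ⁻¹ ^ 2 * h1 +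
    (-(ξ ^ 2 * (1 + ξ * ξ⁻¹)) - ξ * (1 + ξ * ξ⁻¹) - (ξ * ξ⁻¹ - 1) - ξ⁻¹) * e

theorem vals {μ : ℕ} (h : IsPrimitiveRoot q (5 * μ)) (h0 : 0 < μ) :
    U q 1 1 (5 * μ - 1) = 0 ∧ U q 0 1 (5 * μ) = 0 ∧ ∀ z, z = U q 1 1 (5 * μ) ∨
      z = U q 0 1 (5 * μ - 1) → z = ((1 + √5) / 2 : ℝ) ∨ z = ((1 - √5) / 2 : ℝ) := by
  have hq : q ≠ 0 := h.ne_zero (by omega)
  have p := h.pow_eq_one
  have ξ := h.pow (by omega) (mul_comm 5 μ)
  have r : ∀ u, U q u 1 (5 * μ + 1) = U q u 1 (5 * μ) + U q u 1 (5 * μ - 1) := fun u => by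
    obtain ⟨k, hk⟩ : ∃ k, 5 * μ = k + 1 := ⟨5 * μ - 1, by omega⟩
    rw [hk] at p ⊢
    rw [U, p]
    simp
  have g1 : ∀ t : ℤ, t ≠ 0 → t ≠ 1 → t ≠ 5 * μ → t ≠ 5 * μ + 1 → G q (5 * μ + 1) t = 0 :=
    fun t _ _ _ _ => by rw [G, G_m h _ (by omega) (by omega), G_m h _ (by omega) (by omega)]; simp
  have u0 := fun n hn => U_eq hq (.inl rfl) (5 * μ + 4) n hn
  have u1 := fun n hn => U_eq hq (.inr rfl) (5 * μ + 4) n hn
  simp only [Int.cast_zero, sub_zero, Int.cast_one, sub_self] at u0 u1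
  have a1 : U q 1 1 (5 * μ) = c q 0 μ + c q 0 (-μ) := by
    rw [u0 _ (by omega), S_two (by omega) h0 fun j _ _ => G_m h _ (by omega) (by omega), T, T,
      show (((5 * μ : ℕ) : ℤ) - 5 * μ) / 2 + 0 = 0 by omega, G_zero,
      show (((5 * μ : ℕ) : ℤ) - 5 * -μ) / 2 + 0 = (5 * μ : ℕ) by omega, G_self, mul_one, mul_one]
  have a2 : U q 1 1 (5 * μ + 1) = c q 0 μ + c q 0 (-μ) := by
    rw [u0 _ (by omega), S_two (by omega) h0 fun j _ _ => g1 _ (by omega) (by omega) (by omega)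
      (by omega), T, T, show (((5 * μ + 1 : ℕ) : ℤ) - 5 * μ) / 2 + 0 = 0 by omega, G_zero,
      show (((5 * μ + 1 : ℕ) : ℤ) - 5 * -μ) / 2 + 0 = (5 * μ : ℕ) by omega, G, G_self,
      G_m h _ (by omega) (by omega), zpow_natCast, p]
    simp
  have a3 : U q 0 1 (5 * μ) = 0 := by
    rw [u1 _ (by omega), S_two (by omega) h0 fun j _ _ => G_m h _ (by omega) (by omega), T, T,
      G_m h _ (by omega) (by omega), G_m h _ (by omega) (by omega)]
    simp
  have a4 : U q 0 1 (5 * μ + 1) = c q 1 μ + c q 1 (-μ) := by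
    rw [u1 _ (by omega), S_two (by omega) h0 fun j _ _ => g1 _ (by omega) (by omega) (by omega)
      (by omega), T, T, show (((5 * μ + 1 : ℕ) : ℤ) - 5 * μ) / 2 + 1 = 1 by omega,
      show (((5 * μ + 1 : ℕ) : ℤ) - 5 * -μ) / 2 + 1 = (5 * μ + 1 : ℕ) by omega, G_self, G,
      G_m h 1 (by omega) (by omega), sub_self, G_zero]
    simp
  refine ⟨by linear_combination a2 - a1 - r 1, a3, ?_⟩
  rintro _ (rfl | rfl)
  · rw [a1, cval h h0]
    simpa using gold (ξ.pow_of_coprime 3 (by decide))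
  · rw [show U q 0 1 (5 * μ - 1) = c q 1 μ + c q 1 (-μ) by linear_combination a4 - a3 - r 0,
      cval h h0]
    simpa using gold ξ

/-- `R a x u v n` is the term of index `n - 1` -/
noncomputable def R (a x u v : ℂ) : ℕ → ℂ
  | 0 => u
  | 1 => v
  | n + 2 => R a x u v (n + 1) + a * x ^ (n + 1) * R a x u v n

theorem shift {a x : ℂ} (u v : ℂ) {s : ℕ} (h : a * x ^ (s + 1) = 1) (n : ℕ) :
    R a x u v (s + 1 + n) = U x 0 1 n * R a x u v s + U x 1 1 n * R a x u v (s + 1) := by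
  induction n using Nat.twoStepInduction with
  | zero => simp [U]
  | one => rw [R, h]; simp [U, add_comm]
  | more n i1 i2 =>
    rw [← add_assoc] at i2
    rw [← add_assoc, R, U, U, i1, i2]
    linear_combination (U x 0 1 n * R a x u v s + U x 1 1 n * R a x u v (s + 1)) * x ^ (n + 1) * h

theorem Rs (a x u v : ℂ) (n : ℕ) :
    R a x u v (n + 2) = R a x u v (n + 1) + a * x ^ (n + 1) * R a x u v n := rfl

theorem period {a x : ℂ} (u v : ℂ) {k : ℕ} (h : x ^ (k + 3) = 1) (n : ℕ) :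
    R a x u v (k + 3 + n) = a * x ^ (k + 2) * R a x u v (k + 1) * R a x 1 1 n +
      R a x u v (k + 2) * R a x 1 (1 + a) n := by
  induction n using Nat.twoStepInduction with
  | zero =>
    rw [show R a x 1 1 0 = 1 from rfl, show R a x 1 (1 + a) 0 = 1 from rfl]
    linear_combination Rs a x u v (k + 1)
  | one =>
    rw [show R a x 1 1 1 = 1 from rfl, show R a x 1 (1 + a) 1 = 1 + a from rfl]
    linear_combination Rs a x u v (k + 1) + Rs a x u v (k + 2) + a * R a x u v (k + 2) * h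
  | more n i1 i2 =>
    rw [← add_assoc] at i2
    rw [← add_assoc, Rs a x u v (k + 3 + n), Rs a x 1 1 n, Rs a x 1 (1 + a) n, i1, i2,
      add_assoc (k + 3), pow_add x (k + 3), h]
    ring

theorem wron {a x : ℂ} (ha : a ≠ 0) (hx : x ≠ 0) (n : ℕ) :
    R a x 1 1 (n + 1) * R a x 1 (1 + a) n - R a x 1 1 n * R a x 1 (1 + a) (n + 1) ≠ 0 := by
  induction n with
  | zero => simpa [R] using ha
  | succ n ih =>
    refine fun h => mul_ne_zero (mul_ne_zero ha (pow_ne_zero (n + 1) hx)) ih ?_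
    rw [R, R] at h
    linear_combination -h

theorem eig {a x : ℂ} {μ : ℕ} (hx : IsPrimitiveRoot x (5 * μ)) (h0 : 0 < μ) {r : ℕ}
    (h : a * x ^ (r + 1) = 1 ∨ a * x ^ (r + 2) = 1) :
    ∃ z : ℂ, (z = ((1 + √5) / 2 : ℝ) ∨ z = ((1 - √5) / 2 : ℝ)) ∧
      ∀ u v, R a x u v (r + 1 + 5 * μ) = z * R a x u v (r + 1) := by
  obtain ⟨a1, a2, a3⟩ := vals hx h0
  rcases h with h | h
  · exact ⟨_, a3 _ (.inl rfl), fun u v => by rw [shift u v h, a2]; simp⟩
  · refine ⟨_, a3 _ (.inr rfl), fun u v => ?_⟩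
    rw [show r + 1 + 5 * μ = r + 1 + 1 + (5 * μ - 1) by omega, shift u v h, a1]
    simp

open Complex in
theorem main (k m : ℕ) (j l l' : ℤ) (hk : 1 ≤ k) (hm : 3 ≤ m) (hl : Int.gcd l m = 1) (h5 : 5 ∣ m)
    (hkm : k ∣ m) (hl' : l * l' ≡ 1 [ZMOD m]) (r : ℕ)
    (hr : (r : ℤ) ≡ -((m / k : ℕ) * j * l') - 1 [ZMOD m] ∨
      (r : ℤ) ≡ -((m / k : ℕ) * j * l') - 2 [ZMOD m])
    (a x : ℂ) (ha : a = exp (2 * Real.pi * I * j / k)) (hx : x = exp (2 * Real.pi * I * l / m))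
    (A : Matrix (Fin 2) (Fin 2) ℂ)
    (hA : A = !![a * x ^ (m - 1) * R a x 1 1 (m - 2), R a x 1 1 (m - 1);
      a * x ^ (m - 1) * R a x 1 (1 + a) (m - 2), R a x 1 (1 + a) (m - 1)])
    (v : Fin 2 → ℂ) (hv : v = ![R a x 1 1 (r + 1), R a x 1 (1 + a) (r + 1)]) :
    v ≠ 0 ∧ ∃ z : ℂ, (z = ((1 + √5) / 2 : ℝ) ∨ z = ((1 - √5) / 2 : ℝ)) ∧ A.mulVec v = z • v := by
  have m0 : m ≠ 0 := by omega
  have p0 := isPrimitiveRoot_exp m m0
  obtain ⟨w, hw⟩ : ∃ w, w = exp (2 * Real.pi * I / m) := ⟨_, rfl⟩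
  rw [← hw] at p0
  have w0 : w ≠ 0 := p0.ne_zero m0
  have ex : x = w ^ l := by rw [hx, hw, ← exp_int_mul]; congr 1; ring
  have ea : a = w ^ ((m / k : ℕ) * j : ℤ) := by
    obtain ⟨d, rfl⟩ := hkm
    have k0 : (k : ℂ) ≠ 0 := Nat.cast_ne_zero.2 (by omega)
    have d0 : (d : ℂ) ≠ 0 := Nat.cast_ne_zero.2 (by rintro rfl; simp at m0)
    rw [ha, hw, ← exp_int_mul, Nat.mul_div_cancel_left _ hk]
    congr 1
    push_cast
    field_simp
  have px : IsPrimitiveRoot x m := ex ▸ p0.zpow_of_gcd_eq_one l hl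
  have key : ∀ s : ℕ, (s : ℤ) ≡ -((m / k : ℕ) * j * l') [ZMOD m] → a * x ^ s = 1 := fun s hs => by
    rw [ea, ex, ← zpow_natCast, ← zpow_mul, ← zpow_add₀ w0, p0.zpow_eq_one_iff_dvd]
    have := (((hs.mul_left l).add_left ((m / k : ℕ) * j)).trans (show _ ≡ 0 [ZMOD m] from by
      have := (hl'.mul_left (-((m / k : ℕ) * j))).add_left ((m / k : ℕ) * j)
      convert this using 1 <;> ring))
    exact Int.modEq_zero_iff_dvd.1 this
  obtain ⟨μ, rfl⟩ := h5
  obtain ⟨z, z1, z2⟩ := eig (a := a) (r := r) px (by omega) (hr.imp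
    (fun h => key _ (by simpa using h.add_right 1)) fun h => key _ (by simpa using h.add_right 2))
  refine ⟨fun h => wron (ha ▸ exp_ne_zero _) (px.ne_zero m0) r ?_, z, z1, ?_⟩
  · have h1 := congrFun (hv ▸ h) 0
    have h2 := congrFun (hv ▸ h) 1
    simp only [Matrix.cons_val_zero, Matrix.cons_val_one, Pi.zero_apply] at h1 h2
    rw [h1, h2]
    simp
  · obtain ⟨n, hn⟩ : ∃ n, 5 * μ = n + 3 := ⟨5 * μ - 3, by omega⟩
    have p := px.pow_eq_one
    rw [hn] at p z2 hA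
    have e1 := period (a := a) 1 1 p (r + 1)
    have e2 := period (a := a) 1 (1 + a) p (r + 1)
    rw [add_comm (n + 3), z2] at e1 e2
    subst hA hv
    ext i
    fin_cases i
    · simpa [Matrix.mulVec, dotProduct] using e1.symm
    · simpa [Matrix.mulVec, dotProduct] using e2.symm

end Pool.Agent.H.MP_b3b2bb_nt
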